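import Pool.Agent.Y206.Q.Stm
import Pool.Agent.Y206.G.Lin
import Pool.Agent.Helper947.Geo.B10

/-!
Project QG (MP_9828eb_ag): CONE, PEEL and BIN.
-/

set_option autoImplicit false
open MvPolynomial
open Pool.Agent.Helper947.Geo

namespace Pool.Agent.Y469.QG

open Pool.Agent.Y206.Q Pool.Agent.Y206.G

theorem lf_prime {d : ℕ} {η : Fin d → ℂ} (hη : η ≠ 0) : Prime (lf η) := by
  have hne : lf η ≠ 0 := lf_ne hη
  have h1 : (lf η).totalDegree = 1 := (lf_homog η).totalDegree hne
  refine (irreducible_of_totalDegree_eq_one h1 ?_).prime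
  intro c hc
  rw [isUnit_iff_ne_zero]
  rintro rfl
  apply hne
  ext i
  rw [coeff_zero]
  exact zero_dvd_iff.1 (hc i)

theorem peel : S_PEEL := by
  intro K _ w a b F' G hw hw0 hF hG η hη hI
  have hco : IsRelPrime (lf η * F') G := coprime_of_van w _ _ hI
  have hpr : Prime (lf η) := lf_prime hη
  intro f
  constructor
  · rintro hf ⟨k, hk⟩ t
    obtain ⟨x, y, rfl⟩ := Ideal.mem_span_pair.1 hf
    have hG0 : eval (t • w k) G = 0 := (hI G).1 (Ideal.subset_span (by simp)) k t
    have hF1 : eval ((1 : ℂ) • w k) (lf η * F') = 0 :=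
      (hI _).1 (Ideal.subset_span (by simp)) k 1
    rw [one_smul, map_mul, eval_lf] at hF1
    have hF0 : eval (w k) F' = 0 := (mul_eq_zero.1 hF1).resolve_left hk
    have hF2 : eval (t • w k) F' = 0 := by rw [rc_eval_smul F' a hF t (w k), hF0, mul_zero]
    show eval (t • w k) (x * F' + y * G) = 0
    rw [map_add, map_mul, map_mul, hG0, hF2, mul_zero, mul_zero, add_zero]
  · intro hf
    have h1 : lf η * f ∈ Ideal.span {lf η * F', G} := by
      rw [hI]
      intro k t
      rw [map_mul, eval_lf, dotProduct_smul]
      by_cases hk : η ⬝ᵥ w k = 0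
      · rw [hk]; simp
      · have := hf ⟨k, hk⟩ t
        rw [this, mul_zero]
    obtain ⟨x, y, hxy⟩ := Ideal.mem_span_pair.1 h1
    have h2 : lf η ∣ y * G := ⟨f - x * F', by linear_combination hxy⟩
    rcases hpr.dvd_or_dvd h2 with h | h
    · obtain ⟨y', rfl⟩ := h
      refine Ideal.mem_span_pair.2 ⟨x, y', ?_⟩
      apply mul_left_cancel₀ hpr.ne_zero
      linear_combination hxy
    · exact absurd (hco (Dvd.intro _ rfl) h) hpr.not_isUnit

theorem cone : S_CONE := by
  intro K z P hP F G hFG
  let ρ : MvPolynomial (Fin 4) ℂ →ₐ[ℂ] MvPolynomial (Fin 3) ℂ :=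
    aeval (Fin.snoc (α := fun _ => MvPolynomial (Fin 3) ℂ) X 0)
  let ι : MvPolynomial (Fin 3) ℂ →ₐ[ℂ] MvPolynomial (Fin 4) ℂ :=
    aeval (fun i : Fin 3 => X i.castSucc - C (P i.castSucc / P (Fin.last 3)) * X (Fin.last 3))
  have eρ : ∀ (y : Fin 3 → ℂ) (g : MvPolynomial (Fin 4) ℂ),
      eval y (ρ g) = eval (Fin.snoc (α := fun _ => ℂ) y 0) g := by
    intro y g
    have h : (eval y).comp (ρ : MvPolynomial (Fin 4) ℂ →+* MvPolynomial (Fin 3) ℂ)
        = eval (Fin.snoc (α := fun _ => ℂ) y 0) := by
      apply MvPolynomial.ringHom_ext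
      · intro c
        simp [ρ]
      · intro i
        refine Fin.lastCases ?_ (fun j => ?_) i
        · show eval y (ρ (X (Fin.last 3))) = _
          rw [show ρ (X (Fin.last 3)) = 0 from (aeval_X _ _).trans (Fin.snoc_last _ _), eval_X,
            Fin.snoc_last, map_zero]
        · simp [ρ]
    exact congrArg (fun φ : MvPolynomial (Fin 4) ℂ →+* ℂ => φ g) h
  have eι : ∀ (x : Fin 4 → ℂ) (f : MvPolynomial (Fin 3) ℂ), eval x (ι f)
      = eval (fun i => x i.castSucc - P i.castSucc / P (Fin.last 3) * x (Fin.last 3)) f := by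
    intro x f
    have h : (eval x).comp (ι : MvPolynomial (Fin 3) ℂ →+* MvPolynomial (Fin 4) ℂ)
        = eval (fun i => x i.castSucc - P i.castSucc / P (Fin.last 3) * x (Fin.last 3)) := by
      apply MvPolynomial.ringHom_ext
      · intro c
        simp [ι]
      · intro i
        simp [ι]
    exact congrArg (fun φ : MvPolynomial (Fin 3) ℂ →+* ℂ => φ f) h
  have ρι : ∀ f, ρ (ι f) = f := by
    intro f
    have h : ρ.comp ι = AlgHom.id ℂ _ := by
      apply MvPolynomial.algHom_ext
      intro i
      have h3 : ρ (X (Fin.last 3)) = 0 := (aeval_X _ _).trans (Fin.snoc_last _ _)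
      have h4 : ρ (X i.castSucc) = X i := (aeval_X _ _).trans (Fin.snoc_castSucc _ _ _)
      show ρ (ι (X i)) = X i
      rw [show ι (X i) = X i.castSucc - C (P i.castSucc / P (Fin.last 3)) * X (Fin.last 3) from
        aeval_X _ _, map_sub, map_mul, h3, h4, mul_zero, sub_zero]
    exact congrArg (fun φ : MvPolynomial (Fin 3) ℂ →ₐ[ℂ] MvPolynomial (Fin 3) ℂ => φ f) h
  -- vanishing of the restrictions
  have hv : ∀ g ∈ Ideal.span {F, G}, ∀ k, ∀ t : ℂ, eval (t • projv P (z k)) (ρ g) = 0 := by
    intro g hg k t
    rw [eρ]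
    have e : Fin.snoc (α := fun _ => ℂ) (t • projv P (z k)) 0
        = (-(t * z k (Fin.last 3))) • P + (t * P (Fin.last 3)) • z k := by
      funext i
      refine Fin.lastCases ?_ (fun j => ?_) i
      · rw [Fin.snoc_last]
        simp only [Pi.add_apply, Pi.smul_apply, smul_eq_mul]
        ring
      · rw [Fin.snoc_castSucc]
        simp only [Pi.add_apply, Pi.smul_apply, smul_eq_mul, projv]
        ring
    rw [e]
    exact (hFG g).1 hg k _ _
  refine ⟨ρ F, ρ G, fun f => ⟨fun hf k t => ?_, fun hf => ?_⟩⟩
  · obtain ⟨x, y, rfl⟩ := Ideal.mem_span_pair.1 hf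
    rw [map_add, map_mul, map_mul]
    rw [hv F (Ideal.subset_span (by simp)) k t, hv G (Ideal.subset_span (by simp)) k t,
      mul_zero, mul_zero, add_zero]
  · have h1 : ι f ∈ Ideal.span {F, G} := by
      rw [hFG]
      intro k s t
      rw [eι]
      have e : (fun i : Fin 3 => (s • P + t • z k) i.castSucc
          - P i.castSucc / P (Fin.last 3) * (s • P + t • z k) (Fin.last 3))
          = (t / P (Fin.last 3)) • projv P (z k) := by
        funext i
        simp only [Pi.add_apply, Pi.smul_apply, smul_eq_mul, projv]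
        field_simp
        ring
      rw [e]
      exact hf k _
    obtain ⟨x, y, hxy⟩ := Ideal.mem_span_pair.1 h1
    rw [← ρι f, ← hxy, map_add, map_mul, map_mul]
    exact Ideal.mem_span_pair.2 ⟨_, _, rfl⟩

theorem bin : S_BIN := by
  classical
  intro g ι S t hg hd ht hz
  induction S using Finset.induction_on generalizing g with
  | empty =>
    rw [Finset.card_empty] at hg
    have h1 : g.totalDegree = 0 := by
      have := hg.totalDegree_le
      omega
    rw [totalDegree_eq_zero_iff_eq_C] at h1
    exact ⟨coeff 0 g, by simpa using h1⟩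
  | insert i S hi ih =>
    by_cases hg0 : g = 0
    · exact ⟨0, by rw [hg0]; simp⟩
    set η : Fin 2 → ℂ := ![-(t i 1), t i 0] with hη
    have hti : t i ≠ 0 := ht i (Finset.mem_insert_self _ _)
    have hη0 : η ≠ 0 := by
      intro h
      apply hti
      have h0 := congrFun h 0
      have h1 := congrFun h 1
      simp only [hη, Matrix.cons_val_zero, Matrix.cons_val_one, Pi.zero_apply] at h0 h1
      funext j
      fin_cases j
      · simpa using h1
      · simpa using neg_eq_zero.1 h0
    have hdv : lf η ∣ g := by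
      refine dvd_of_vanish (lf_prime hη0).irreducible fun P hP => ?_
      rw [eval_lf] at hP
      simp only [hη, dotProduct, Fin.sum_univ_two, Matrix.cons_val_zero, Matrix.cons_val_one] at hP
      -- P is a multiple of t i
      have hmul : ∃ c : ℂ, P = c • t i := by
        by_cases h0 : t i 0 = 0
        · have h1 : t i 1 ≠ 0 := by
            intro h1
            apply hti
            funext j
            fin_cases j
            · exact h0
            · exact h1
          refine ⟨P 1 / t i 1, ?_⟩
          rw [h0] at hP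
          have hP0 : P 0 = 0 := by
            have : t i 1 * P 0 = 0 := by linear_combination -hP
            exact (mul_eq_zero.1 this).resolve_left h1
          funext j
          fin_cases j
          · simp [hP0, h0]
          · simp [h1]
        · refine ⟨P 0 / t i 0, ?_⟩
          funext j
          fin_cases j
          · simp [h0]
          · simp only [Fin.mk_one, Fin.isValue, Pi.smul_apply, smul_eq_mul]
            field_simp
            linear_combination hP
      obtain ⟨c, rfl⟩ := hmul
      rw [rc_eval_smul g _ hg c (t i), hz i (Finset.mem_insert_self _ _), mul_zero]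
    obtain ⟨g', hg'⟩ := hdv
    have hom' : g'.IsHomogeneous S.card := by
      refine homog_cancel (lf_homog η) (lf_ne hη0) ?_
      rw [← hg']
      rw [Finset.card_insert_of_notMem hi, add_comm] at hg
      exact hg
    obtain ⟨c, hc⟩ := ih g' hom' (fun j hj k hk => hd j (Finset.mem_insert_of_mem hj) k
      (Finset.mem_insert_of_mem hk)) (fun j hj => ht j (Finset.mem_insert_of_mem hj)) (by
        intro j hj
        have h1 := hz j (Finset.mem_insert_of_mem hj)
        rw [hg', map_mul, eval_lf] at h1
        refine (mul_eq_zero.1 h1).resolve_left ?_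
        have h2 := hd i (Finset.mem_insert_self _ _) j (Finset.mem_insert_of_mem hj)
          (fun h => hi (h ▸ hj))
        intro h3
        apply h2
        simp only [hη, dotProduct, Fin.sum_univ_two, Matrix.cons_val_zero, Matrix.cons_val_one]
          at h3
        rw [dt]
        linear_combination h3)
    refine ⟨c, ?_⟩
    rw [Finset.prod_insert hi, hg', hc, ← hη]
    ring

end Pool.Agent.Y469.QG
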