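import Pool.Agent.Y206.Q.Stm
import Pool.Agent.Y206.G.Lin

/-!
Project QG (MP_9828eb_ag): PAIR, TRIP, PLANE and CONIC.
-/

set_option autoImplicit false
open MvPolynomial
open Pool.Agent.Helper947.Geo

namespace Pool.Agent.Y469.QG

open Pool.Agent.Y206.Q

theorem ne_cases {s : Fin 2 → ℂ} (h : s ≠ 0) : s 0 ≠ 0 ∨ s 1 ≠ 0 := by
  by_contra hc
  push Not at hc
  apply h
  funext j
  fin_cases j
  · exact hc.1
  · exact hc.2

theorem perp {A t : Fin 2 → ℂ} (hA : A ≠ 0) (ht : t ≠ 0) (h : A 0 * t 0 + A 1 * t 1 = 0) :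
    ∃ c : ℂ, c ≠ 0 ∧ t 0 = -c * A 1 ∧ t 1 = c * A 0 := by
  rcases ne_cases hA with h0 | h0
  · have e0 : t 0 = -(t 1 / A 0) * A 1 := by
      field_simp
      linear_combination h
    have e1 : t 1 = t 1 / A 0 * A 0 := by field_simp
    refine ⟨t 1 / A 0, ?_, e0, e1⟩
    intro hc
    rw [hc] at e0 e1
    rcases ne_cases ht with h1 | h1
    · exact h1 (by rw [e0]; ring)
    · exact h1 (by rw [e1]; ring)
  · have e0 : t 0 = -(-t 0 / A 1) * A 1 := by field_simp
    have e1 : t 1 = -t 0 / A 1 * A 0 := by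
      field_simp
      linear_combination h
    refine ⟨-t 0 / A 1, ?_, e0, e1⟩
    intro hc
    rw [hc] at e0 e1
    rcases ne_cases ht with h1 | h1
    · exact h1 (by rw [e0]; ring)
    · exact h1 (by rw [e1]; ring)

theorem prop_of_dt {s s' : Fin 2 → ℂ} (hs : s ≠ 0) (h : dt s s' = 0) : ∃ c : ℂ, s' = c • s := by
  rw [dt] at h
  rcases ne_cases hs with h0 | h0
  · refine ⟨s' 0 / s 0, ?_⟩
    funext j
    fin_cases j
    · simp [h0]
    · simp only [Fin.mk_one, Fin.isValue, Pi.smul_apply, smul_eq_mul]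
      field_simp
      linear_combination h
  · refine ⟨s' 1 / s 1, ?_⟩
    funext j
    fin_cases j
    · simp only [Fin.zero_eta, Fin.isValue, Pi.smul_apply, smul_eq_mul]
      field_simp
      linear_combination -h
    · simp [h0]

theorem all_dt {ι : Type} (u : Fin 2 → ℂ) (v : ι → Fin 2 → ℂ) (h : ∀ i, ∃ c : ℂ, v i = c • u) :
    ∀ i j, dt (v i) (v j) = 0 := by
  intro i j
  obtain ⟨c, hc⟩ := h i
  obtain ⟨d, hd⟩ := h j
  rw [hc, hd, dt]
  simp only [Pi.smul_apply, smul_eq_mul]
  ring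

theorem dotE (ξ : Fin 4 → ℂ) (e : Fin 2 → Fin 2 → Fin 4 → ℂ) (s t : Fin 2 → ℂ) :
    ξ ⬝ᵥ E e s t = s 0 * t 0 * (ξ ⬝ᵥ e 0 0) + s 0 * t 1 * (ξ ⬝ᵥ e 0 1)
      + s 1 * t 0 * (ξ ⬝ᵥ e 1 0) + s 1 * t 1 * (ξ ⬝ᵥ e 1 1) := by
  simp only [E, dotProduct_add, dotProduct_smul, smul_eq_mul]

theorem X_ne {e : Fin 2 → Fin 2 → Fin 4 → ℂ} (he : Basis4 e) (ξ : Fin 4 → ℂ)
    (h : ∀ i j, ξ ⬝ᵥ e i j = 0) : ξ = 0 := by
  have hs : Submodule.span ℂ (Set.range fun p : Fin 2 × Fin 2 => e p.1 p.2) = ⊤ :=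
    LinearIndependent.span_eq_top_of_card_eq_finrank' he (by simp)
  have hall : ∀ v : Fin 4 → ℂ, ξ ⬝ᵥ v = 0 := by
    intro v
    have hv : v ∈ Submodule.span ℂ (Set.range fun p : Fin 2 × Fin 2 => e p.1 p.2) := by
      rw [hs]; trivial
    induction hv using Submodule.span_induction with
    | mem x hx => obtain ⟨p, rfl⟩ := hx; exact h p.1 p.2
    | zero => simp
    | add x y _ _ hx hy => rw [dotProduct_add, hx, hy, add_zero]
    | smul a x _ hx => rw [dotProduct_smul, hx, smul_zero]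
  funext i
  have := hall (Pi.single i 1)
  simpa using this

theorem coef {e : Fin 2 → Fin 2 → Fin 4 → ℂ} (he : Basis4 e) (m00 m01 m10 m11 : ℂ)
    (h : m00 • e 0 0 + m01 • e 0 1 + m10 • e 1 0 + m11 • e 1 1 = 0) :
    m00 = 0 ∧ m01 = 0 ∧ m10 = 0 ∧ m11 = 0 := by
  have h1 := Fintype.linearIndependent_iff.1 he
    (fun p => (![![m00, m01], ![m10, m11]] : Fin 2 → Fin 2 → ℂ) p.1 p.2) (by
      rw [Fintype.sum_prod_type]
      simp only [Fin.sum_univ_two, Matrix.cons_val_zero, Matrix.cons_val_one]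
      rw [← h]
      abel)
  refine ⟨?_, ?_, ?_, ?_⟩
  · simpa using h1 (0, 0)
  · simpa using h1 (0, 1)
  · simpa using h1 (1, 0)
  · simpa using h1 (1, 1)

theorem plane : S_PLANE := by
  intro e he ξ hξ s₀ x y hs₀ hxy h1 h2
  rw [dotE] at h1 h2
  set A := ξ ⬝ᵥ e 0 0 with hA
  set B := ξ ⬝ᵥ e 0 1 with hB
  set C' := ξ ⬝ᵥ e 1 0 with hC
  set D := ξ ⬝ᵥ e 1 1 with hD
  have hX : ¬ (A = 0 ∧ B = 0 ∧ C' = 0 ∧ D = 0) := by
    rintro ⟨a, b, c, d⟩
    apply hξ
    refine X_ne he ξ fun i j => ?_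
    fin_cases i <;> fin_cases j
    · exact a
    · exact b
    · exact c
    · exact d
  rw [dt] at hxy
  have k0 : s₀ 0 * A + s₀ 1 * C' = 0 := by
    have : (s₀ 0 * A + s₀ 1 * C') * (x 0 * y 1 - x 1 * y 0) = 0 := by
      linear_combination y 1 * h1 - x 1 * h2
    exact (mul_eq_zero.1 this).resolve_right hxy
  have k1 : s₀ 0 * B + s₀ 1 * D = 0 := by
    have : (s₀ 0 * B + s₀ 1 * D) * (x 0 * y 1 - x 1 * y 0) = 0 := by
      linear_combination x 0 * h2 - y 0 * h1
    exact (mul_eq_zero.1 this).resolve_right hxy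
  obtain ⟨c0, c1, e0, e1, e2, e3⟩ : ∃ c0 c1 : ℂ, A = -s₀ 1 * c0 ∧ B = -s₀ 1 * c1 ∧
      C' = s₀ 0 * c0 ∧ D = s₀ 0 * c1 := by
    rcases ne_cases hs₀ with h | h
    · refine ⟨C' / s₀ 0, D / s₀ 0, ?_, ?_, ?_, ?_⟩
      · field_simp
        linear_combination k0
      · field_simp
        linear_combination k1
      · field_simp
      · field_simp
    · refine ⟨-A / s₀ 1, -B / s₀ 1, ?_, ?_, ?_, ?_⟩
      · field_simp
      · field_simp
      · field_simp
        linear_combination k0
      · field_simp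
        linear_combination k1
  refine ⟨![-c1, c0], ?_, fun s t => ?_⟩
  · intro hc
    have g0 := congrFun hc 0
    have g1 := congrFun hc 1
    simp only [Matrix.cons_val_zero, Matrix.cons_val_one, Pi.zero_apply, neg_eq_zero] at g0 g1
    apply hX
    rw [e0, e1, e2, e3, g0, g1]
    simp
  · rw [dotE, ← hA, ← hB, ← hC, ← hD, e0, e1, e2, e3, dt, dt]
    simp only [Matrix.cons_val_zero, Matrix.cons_val_one]
    have : s 0 * t 0 * (-s₀ 1 * c0) + s 0 * t 1 * (-s₀ 1 * c1) + s 1 * t 0 * (s₀ 0 * c0)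
        + s 1 * t 1 * (s₀ 0 * c1) = -((s 0 * s₀ 1 - s 1 * s₀ 0) * (t 0 * c0 - t 1 * -c1)) := by
      ring
    rw [this, neg_eq_zero, mul_eq_zero]

theorem conic : S_CONIC := by
  intro e he ξ hξ
  set A := ξ ⬝ᵥ e 0 0 with hA
  set B := ξ ⬝ᵥ e 0 1 with hB
  set C' := ξ ⬝ᵥ e 1 0 with hC
  set D := ξ ⬝ᵥ e 1 1 with hD
  by_cases hdet : A * D - B * C' = 0
  · left
    have hX : ¬ (A = 0 ∧ B = 0 ∧ C' = 0 ∧ D = 0) := by
      rintro ⟨a, b, c, d⟩
      apply hξ
      refine X_ne he ξ fun i j => ?_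
      fin_cases i <;> fin_cases j
      · exact a
      · exact b
      · exact c
      · exact d
    obtain ⟨s₀, hs₀, k0, k1⟩ : ∃ s₀ : Fin 2 → ℂ, s₀ ≠ 0 ∧ s₀ 0 * A + s₀ 1 * C' = 0 ∧
        s₀ 0 * B + s₀ 1 * D = 0 := by
      by_cases h0 : A = 0 ∧ C' = 0
      · refine ⟨![D, -B], ?_, ?_, ?_⟩
        · intro hc
          have g0 := congrFun hc 0
          have g1 := congrFun hc 1
          simp only [Matrix.cons_val_zero, Matrix.cons_val_one, Pi.zero_apply, neg_eq_zero]
            at g0 g1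
          exact hX ⟨h0.1, g1, h0.2, g0⟩
        · simp only [Matrix.cons_val_zero, Matrix.cons_val_one]
          rw [h0.1, h0.2]; ring
        · simp only [Matrix.cons_val_zero, Matrix.cons_val_one]
          ring
      · refine ⟨![C', -A], ?_, ?_, ?_⟩
        · intro hc
          have g0 := congrFun hc 0
          have g1 := congrFun hc 1
          simp only [Matrix.cons_val_zero, Matrix.cons_val_one, Pi.zero_apply, neg_eq_zero]
            at g0 g1
          exact h0 ⟨g1, g0⟩
        · simp only [Matrix.cons_val_zero, Matrix.cons_val_one]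
          ring
        · simp only [Matrix.cons_val_zero, Matrix.cons_val_one]
          linear_combination -hdet
    obtain ⟨t₀, ht₀, h⟩ := plane e he ξ hξ s₀ ![1, 0] ![0, 1] hs₀ (by simp [dt]) (by
      rw [dotE, ← hA, ← hB, ← hC, ← hD]
      simp only [Matrix.cons_val_zero, Matrix.cons_val_one]
      linear_combination k0) (by
      rw [dotE, ← hA, ← hB, ← hC, ← hD]
      simp only [Matrix.cons_val_zero, Matrix.cons_val_one]
      linear_combination k1)
    exact ⟨s₀, t₀, hs₀, ht₀, h⟩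
  · right
    intro s t s' t' hs ht hs' ht' h h'
    rw [dotE, ← hA, ← hB, ← hC, ← hD] at h h'
    have hne : ∀ r : Fin 2 → ℂ, r ≠ 0 →
        (![r 0 * A + r 1 * C', r 0 * B + r 1 * D] : Fin 2 → ℂ) ≠ 0 := by
      intro r hr hc
      have g0 := congrFun hc 0
      have g1 := congrFun hc 1
      simp only [Matrix.cons_val_zero, Matrix.cons_val_one, Pi.zero_apply] at g0 g1
      rcases ne_cases hr with h0 | h0
      · apply h0
        have : r 0 * (A * D - B * C') = 0 := by linear_combination D * g0 - C' * g1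
        exact (mul_eq_zero.1 this).resolve_right hdet
      · apply h0
        have : r 1 * (A * D - B * C') = 0 := by linear_combination A * g1 - B * g0
        exact (mul_eq_zero.1 this).resolve_right hdet
    obtain ⟨c, hc, c0, c1⟩ := perp (hne s hs) ht (by
      simp only [Matrix.cons_val_zero, Matrix.cons_val_one]
      linear_combination h)
    obtain ⟨c', hc', c0', c1'⟩ := perp (hne s' hs') ht' (by
      simp only [Matrix.cons_val_zero, Matrix.cons_val_one]
      linear_combination h')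
    simp only [Matrix.cons_val_zero, Matrix.cons_val_one] at c0 c1 c0' c1'
    have key : dt t t' = c * c' * (A * D - B * C') * dt s s' := by
      rw [dt, dt, c0, c1, c0', c1']
      ring
    rw [key]
    constructor
    · intro h0
      rw [h0, mul_zero]
    · intro h0
      exact (mul_eq_zero.1 h0).resolve_left (mul_ne_zero (mul_ne_zero hc hc') hdet)

/-- pairs: independence from coordinates -/
theorem two {s t s' t' : Fin 2 → ℂ} (hs : s ≠ 0) (ht : t ≠ 0) (hs' : s' ≠ 0) (ht' : t' ≠ 0)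
    (h : dt s s' ≠ 0 ∨ dt t t' ≠ 0) (a b : ℂ)
    (h00 : a * (s 0 * t 0) + b * (s' 0 * t' 0) = 0) (h01 : a * (s 0 * t 1) + b * (s' 0 * t' 1) = 0)
    (h10 : a * (s 1 * t 0) + b * (s' 1 * t' 0) = 0) (h11 : a * (s 1 * t 1) + b * (s' 1 * t' 1) = 0) :
    a = 0 ∧ b = 0 := by
  rw [dt, dt] at h
  rcases h with h | h
  · have b0 : b * t' 0 = 0 := by
      have : b * t' 0 * (s 0 * s' 1 - s 1 * s' 0) = 0 := by
        linear_combination s 0 * h10 - s 1 * h00
      exact (mul_eq_zero.1 this).resolve_right h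
    have b1 : b * t' 1 = 0 := by
      have : b * t' 1 * (s 0 * s' 1 - s 1 * s' 0) = 0 := by
        linear_combination s 0 * h11 - s 1 * h01
      exact (mul_eq_zero.1 this).resolve_right h
    have a0 : a * t 0 = 0 := by
      have : a * t 0 * (s 0 * s' 1 - s 1 * s' 0) = 0 := by
        linear_combination s' 1 * h00 - s' 0 * h10
      exact (mul_eq_zero.1 this).resolve_right h
    have a1 : a * t 1 = 0 := by
      have : a * t 1 * (s 0 * s' 1 - s 1 * s' 0) = 0 := by
        linear_combination s' 1 * h01 - s' 0 * h11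
      exact (mul_eq_zero.1 this).resolve_right h
    constructor
    · rcases ne_cases ht with h0 | h0
      · exact (mul_eq_zero.1 a0).resolve_right h0
      · exact (mul_eq_zero.1 a1).resolve_right h0
    · rcases ne_cases ht' with h0 | h0
      · exact (mul_eq_zero.1 b0).resolve_right h0
      · exact (mul_eq_zero.1 b1).resolve_right h0
  · have b0 : b * s' 0 = 0 := by
      have : b * s' 0 * (t 0 * t' 1 - t 1 * t' 0) = 0 := by
        linear_combination t 0 * h01 - t 1 * h00
      exact (mul_eq_zero.1 this).resolve_right h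
    have b1 : b * s' 1 = 0 := by
      have : b * s' 1 * (t 0 * t' 1 - t 1 * t' 0) = 0 := by
        linear_combination t 0 * h11 - t 1 * h10
      exact (mul_eq_zero.1 this).resolve_right h
    have a0 : a * s 0 = 0 := by
      have : a * s 0 * (t 0 * t' 1 - t 1 * t' 0) = 0 := by
        linear_combination t' 1 * h00 - t' 0 * h01
      exact (mul_eq_zero.1 this).resolve_right h
    have a1 : a * s 1 = 0 := by
      have : a * s 1 * (t 0 * t' 1 - t 1 * t' 0) = 0 := by
        linear_combination t' 1 * h10 - t' 0 * h11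
      exact (mul_eq_zero.1 this).resolve_right h
    constructor
    · rcases ne_cases hs with h0 | h0
      · exact (mul_eq_zero.1 a0).resolve_right h0
      · exact (mul_eq_zero.1 a1).resolve_right h0
    · rcases ne_cases hs' with h0 | h0
      · exact (mul_eq_zero.1 b0).resolve_right h0
      · exact (mul_eq_zero.1 b1).resolve_right h0

theorem pair : S_PAIR := by
  intro e he s t s' t' hs ht hs' ht'
  rw [LinearIndependent.pair_iff]
  constructor
  · intro hli
    by_contra hc
    push Not at hc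
    obtain ⟨c, rfl⟩ := prop_of_dt hs hc.1
    obtain ⟨d, rfl⟩ := prop_of_dt ht hc.2
    have h1 := hli (c * d) (-1) (by
      simp only [E, Pi.smul_apply, smul_eq_mul, smul_add, smul_smul]
      module)
    exact absurd h1.2 (by norm_num)
  · intro h a b hab
    have h1 := coef he (a * (s 0 * t 0) + b * (s' 0 * t' 0)) (a * (s 0 * t 1) + b * (s' 0 * t' 1))
      (a * (s 1 * t 0) + b * (s' 1 * t' 0)) (a * (s 1 * t 1) + b * (s' 1 * t' 1)) (by
        rw [← hab]
        simp only [E]
        module)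
    exact two hs ht hs' ht' h a b h1.1 h1.2.1 h1.2.2.1 h1.2.2.2

theorem trip : S_TRIP := by
  intro e he s t hP hli
  obtain ⟨hs, ht, hd⟩ := hP
  rw [Fintype.not_linearIndependent_iff] at hli
  obtain ⟨x, hx, i0, hi0⟩ := hli
  rw [Fin.sum_univ_three] at hx
  have hx' : x 0 • E e (s 0) (t 0) + x 1 • E e (s 1) (t 1) + x 2 • E e (s 2) (t 2) = 0 := hx
  obtain ⟨h00, h01, h10, h11⟩ := coef he
    (x 0 * (s 0 0 * t 0 0) + x 1 * (s 1 0 * t 1 0) + x 2 * (s 2 0 * t 2 0))
    (x 0 * (s 0 0 * t 0 1) + x 1 * (s 1 0 * t 1 1) + x 2 * (s 2 0 * t 2 1))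
    (x 0 * (s 0 1 * t 0 0) + x 1 * (s 1 1 * t 1 0) + x 2 * (s 2 1 * t 2 0))
    (x 0 * (s 0 1 * t 0 1) + x 1 * (s 1 1 * t 1 1) + x 2 * (s 2 1 * t 2 1)) (by
      rw [← hx']
      simp only [E]
      module)
  have n0 : x 0 ≠ 0 := by
    intro h0
    rw [h0] at h00 h01 h10 h11
    have := two (hs 1) (ht 1) (hs 2) (ht 2) (hd 1 2 (by decide)) (x 1) (x 2)
      (by linear_combination h00) (by linear_combination h01) (by linear_combination h10)
      (by linear_combination h11)
    apply hi0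
    fin_cases i0
    · exact h0
    · exact this.1
    · exact this.2
  have n1 : x 1 ≠ 0 := by
    intro h0
    rw [h0] at h00 h01 h10 h11
    have := two (hs 0) (ht 0) (hs 2) (ht 2) (hd 0 2 (by decide)) (x 0) (x 2)
      (by linear_combination h00) (by linear_combination h01) (by linear_combination h10)
      (by linear_combination h11)
    exact n0 this.1
  have n2 : x 2 ≠ 0 := by
    intro h0
    rw [h0] at h00 h01 h10 h11
    have := two (hs 0) (ht 0) (hs 1) (ht 1) (hd 0 1 (by decide)) (x 0) (x 1)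
      (by linear_combination h00) (by linear_combination h01) (by linear_combination h10)
      (by linear_combination h11)
    exact n0 this.1
  -- contraction with s 0
  have p0 : x 1 * dt (s 0) (s 1) * t 1 0 + x 2 * dt (s 0) (s 2) * t 2 0 = 0 := by
    rw [dt, dt]; linear_combination s 0 0 * h10 - s 0 1 * h00
  have p1 : x 1 * dt (s 0) (s 1) * t 1 1 + x 2 * dt (s 0) (s 2) * t 2 1 = 0 := by
    rw [dt, dt]; linear_combination s 0 0 * h11 - s 0 1 * h01
  have q0 : x 0 * dt (s 1) (s 0) * t 0 0 + x 2 * dt (s 1) (s 2) * t 2 0 = 0 := by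
    rw [dt, dt]; linear_combination s 1 0 * h10 - s 1 1 * h00
  have q1 : x 0 * dt (s 1) (s 0) * t 0 1 + x 2 * dt (s 1) (s 2) * t 2 1 = 0 := by
    rw [dt, dt]; linear_combination s 1 0 * h11 - s 1 1 * h01
  by_cases hd01 : dt (s 0) (s 1) = 0
  · left
    rw [hd01] at p0 p1
    have h02 : dt (s 0) (s 2) = 0 := by
      rcases ne_cases (ht 2) with h | h
      · have : x 2 * dt (s 0) (s 2) * t 2 0 = 0 := by linear_combination p0
        exact (mul_eq_zero.1 ((mul_eq_zero.1 this).resolve_right h)).resolve_left n2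
      · have : x 2 * dt (s 0) (s 2) * t 2 1 = 0 := by linear_combination p1
        exact (mul_eq_zero.1 ((mul_eq_zero.1 this).resolve_right h)).resolve_left n2
    refine all_dt (s 0) s fun i => ?_
    fin_cases i
    · exact ⟨1, (one_smul _ _).symm⟩
    · exact prop_of_dt (hs 0) hd01
    · exact prop_of_dt (hs 0) h02
  · right
    have hd10 : dt (s 1) (s 0) ≠ 0 := by
      intro h
      apply hd01
      rw [dt] at h ⊢
      linear_combination -h
    refine all_dt (t 2) t fun i => ?_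
    fin_cases i
    · refine prop_of_dt (ht 2) ?_
      have : x 0 * dt (s 1) (s 0) * dt (t 2) (t 0) = 0 := by
        show x 0 * dt (s 1) (s 0) * (t 2 0 * t 0 1 - t 2 1 * t 0 0) = 0
        linear_combination t 2 0 * q1 - t 2 1 * q0
      exact (mul_eq_zero.1 this).resolve_left (mul_ne_zero n0 hd10)
    · refine prop_of_dt (ht 2) ?_
      have : x 1 * dt (s 0) (s 1) * dt (t 2) (t 1) = 0 := by
        show x 1 * dt (s 0) (s 1) * (t 2 0 * t 1 1 - t 2 1 * t 1 0) = 0
        linear_combination t 2 0 * p1 - t 2 1 * p0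
      exact (mul_eq_zero.1 this).resolve_left (mul_ne_zero n1 hd01)
    · exact ⟨1, (one_smul _ _).symm⟩

end Pool.Agent.Y469.QG
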