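import Pool.Agent.Y206.Q.Stm
import Pool.Agent.Y206.G.Lin
import Pool.Agent.Y206.G.Sys2
import Pool.Agent.Helper947.Geo.B10

/-!
Project QG (MP_9828eb_ag): NV.
-/

set_option autoImplicit false
open MvPolynomial
open Pool.Agent.Helper947.Geo

namespace Pool.Agent.Y469.QG.Nv

open Pool.Agent.Y206.Q Pool.Agent.Y206.G

theorem lf_prime {d : ℕ} {η : Fin d → ℂ} (hη : η ≠ 0) : Prime (lf η) := by
  have hne : lf η ≠ 0 := lf_ne hη
  have h1 : (lf η).totalDegree = 1 := (lf_homog η).totalDegree hne
  refine (irreducible_of_totalDegree_eq_one h1 ?_).prime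
  intro c hc
  rw [isUnit_iff_ne_zero]
  rintro rfl
  apply hne
  ext i
  rw [coeff_zero]
  exact zero_dvd_iff.1 (hc i)

theorem nv (h1 : S_LINE) (h3 : S_BIN) : S_NV := by
  classical
  intro K _ w a b F G hw hw0 hF hG hI ha hab η hη hn
  have hco : IsRelPrime F G := coprime_of_van w _ _ hI
  have hpr : Prime (lf η) := lf_prime hη
  have hFI : F ∈ Ideal.span {F, G} := Ideal.subset_span (by simp)
  have hGI : G ∈ Ideal.span {F, G} := Ideal.subset_span (by simp)
  by_cases hdF : lf η ∣ F
  · have hcard := h1 K w a b F G hw hw0 hF hG hI η hη hdF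
    refine ⟨G, hGI, ?_, fun hdG => hpr.not_isUnit (hco hdF hdG)⟩
    rw [hcard]
    exact hG
  · rcases hn with hn | hn
    · refine ⟨F, hFI, ?_, hdF⟩
      rw [hn]
      exact hF
    rcases hab.eq_or_lt with hab' | hab'
    · refine ⟨F, hFI, ?_, hdF⟩
      rw [hn, ← hab']
      exact hF
    -- too many zeros
    exfalso
    obtain ⟨u, hu, huξ, husp⟩ := exists_ker_basis η hη
    have hker : ∀ P, η ⬝ᵥ P = 0 → ∃ x : Fin 2 → ℂ, ∑ j, x j • u j = P := by
      intro P hP
      rw [dotProduct_comm] at hP
      exact husp P hP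
    have hf0 : sub u F ≠ 0 := by
      intro h0
      apply hdF
      refine dvd_of_vanish hpr.irreducible fun P hP => ?_
      rw [eval_lf] at hP
      obtain ⟨x, rfl⟩ := hker P hP
      rw [← eval_sub, h0, map_zero]
    have hfh : (sub u F).IsHomogeneous a := sub_hom u F a hF
    have hcoord : ∀ k : {k // η ⬝ᵥ w k = 0}, ∃ x : Fin 2 → ℂ, ∑ j, x j • u j = w k.1 :=
      fun k => hker _ k.2
    choose t ht using hcoord
    have ht0 : ∀ k, t k ≠ 0 := by
      intro k h
      apply hw0 k.1
      rw [← ht k, h]
      simp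
    have hdt : ∀ k l, k ≠ l → dt (t k) (t l) ≠ 0 := by
      intro k l hkl hd
      have hli := hw k.1 l.1 (fun h => hkl (Subtype.ext h))
      rw [LinearIndependent.pair_iff] at hli
      -- a nontrivial relation
      have hrel : ∀ p q : ℂ, (∀ j, p * t k j + q * t l j = 0) → p = 0 ∧ q = 0 := by
        intro p q hpq
        refine hli p q ?_
        rw [← ht k, ← ht l, Finset.smul_sum, Finset.smul_sum, ← Finset.sum_add_distrib]
        refine Finset.sum_eq_zero fun j _ => ?_
        rw [smul_smul, smul_smul, ← add_smul, hpq j, zero_smul]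
      rw [dt] at hd
      have r0 := hrel (t l 1) (-(t k 1)) (by
        intro j
        fin_cases j
        · simp only [Fin.zero_eta, Fin.isValue]
          linear_combination hd
        · simp only [Fin.mk_one, Fin.isValue]
          ring)
      have r1 := hrel (t l 0) (-(t k 0)) (by
        intro j
        fin_cases j
        · simp only [Fin.zero_eta, Fin.isValue]
          ring
        · simp only [Fin.mk_one, Fin.isValue]
          linear_combination -hd)
      apply ht0 l
      funext j
      fin_cases j
      · exact r1.1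
      · exact r0.1
    have hz : ∀ k, eval (t k) (sub u F) = 0 := by
      intro k
      rw [eval_sub, ht k]
      have := (hI F).1 hFI k.1 1
      rwa [one_smul] at this
    have hcard : a < Fintype.card {k // η ⬝ᵥ w k = 0} := by
      rw [← Nat.card_eq_fintype_card, hn]
      exact hab'
    obtain ⟨S, -, hS⟩ := Finset.exists_subset_card_eq (s := (Finset.univ : Finset {k // η ⬝ᵥ w k = 0}))
      (n := a) (by rw [Finset.card_univ]; exact hcard.le)
    obtain ⟨l, hl⟩ : ∃ l, l ∉ S := by
      by_contra hcon
      push Not at hcon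
      have : S = Finset.univ := Finset.eq_univ_iff_forall.2 hcon
      rw [this, Finset.card_univ] at hS
      omega
    obtain ⟨c, hc⟩ := h3 (sub u F) {k // η ⬝ᵥ w k = 0} S t (by rw [hS]; exact hfh)
      (fun i _ j _ hij => hdt i j hij) (fun i _ => ht0 i) (fun i _ => hz i)
    have h4 := hz l
    rw [hc, map_mul, eval_C, map_prod] at h4
    rcases mul_eq_zero.1 h4 with h5 | h5
    · apply hf0
      rw [hc, h5]
      simp
    · rw [Finset.prod_eq_zero_iff] at h5
      obtain ⟨i, hi, h6⟩ := h5
      rw [eval_lf] at h6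
      refine hdt i l (fun h => hl (h ▸ hi)) ?_
      simp only [dotProduct, Fin.sum_univ_two, Matrix.cons_val_zero, Matrix.cons_val_one] at h6
      rw [dt]
      linear_combination h6

end Pool.Agent.Y469.QG.Nv
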